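import Pool.Agent.Helper85_CYD.StG
import Pool.Agent.Helper85_CYD.St1

/-! # CYD, module TAM -/

set_option autoImplicit false

open Polynomial IsLocalRing

namespace Pool.Agent.CYD.H19

theorem red_rev {L : Type} [Field L] (g : ℤ[X]) (h : red L g ≠ 0) : red L g.reverse ≠ 0 := by
  intro h0
  apply h
  ext i
  rw [red, coeff_map, coeff_zero]
  by_cases hi : i ≤ g.natDegree
  · have h1 := congrArg (fun f : L[X] => f.coeff (revAt g.natDegree i)) h0
    simp only [red, coeff_map, coeff_zero, coeff_reverse] at h1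
    rwa [revAt_invol] at h1
  · rw [coeff_eq_zero_of_natDegree_lt (by omega), map_zero]

/-- module TAM -/
theorem tam (hLoc : LocStmt) (hSum : SumStmt) (hRmu : RmuStmt) : TamStmt := by
  intro n p q g h F K _ _ A c w hL
  have hp := F.hp
  have hq := F.hq
  have : Fact p.Prime := ⟨hp⟩
  have hF : Fg n g h := F.toFg
  have hp0 : (p : ResidueField A) = 0 := by
    have h1 := (residue_eq_zero_iff (p : A)).mpr hL.hm
    rwa [map_natCast] at h1
  have : CharP (ResidueField A) p := by
    have h1 := CharP.ringChar_of_prime_eq_zero hp hp0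
    rw [← h1]
    exact ringChar.charP _
  have hq0 : (q : ResidueField A) ≠ 0 := by
    intro h0
    have h1 := (CharP.cast_eq_zero_iff (ResidueField A) p q).mp h0
    exact F.hpq ((Nat.prime_dvd_prime_iff_eq hp hq).mp h1)
  have : NeZero (q : ResidueField A) := ⟨hq0⟩
  have hprim : ∀ c' : A, IsPrimitiveRoot c' q → IsPrimitiveRoot (residue A c') q := by
    intro c' hc'
    rw [← isRoot_cyclotomic_iff, IsRoot.def, ← map_cyclotomic q (residue A), eval_map,
      eval₂_at_apply, (hc'.isRoot_cyclotomic hq.pos).eq_zero, map_zero]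
  have hcq : c ^ q = 1 := hL.hc.pow_eq_one
  have hc1 : c * c ^ (q - 1) = 1 := by
    rw [← pow_succ', Nat.sub_add_cancel hq.one_le, hcq]
  have hc'prim : IsPrimitiveRoot (c ^ (q - 1)) q :=
    hL.hc.pow_of_coprime (q - 1) (by
      have := Nat.coprime_self_sub_left (n := q) (m := 1) hq.one_le
      rw [this]
      exact Nat.coprime_one_left q)
  have hpq : ¬ p ∣ q := fun h0 => F.hpq ((Nat.prime_dvd_prime_iff_eq hp hq).mp h0)
  have hn : n = p * q := F.hn
  obtain ⟨hg0, hg1⟩ := hSum n p q g h hF hp hn (ResidueField A) (residue A c) (hprim c hL.hc)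
  obtain ⟨_, hg2⟩ := hSum n p q g h hF hp hn (ResidueField A) (residue A (c ^ (q - 1)))
    (hprim _ hc'prim)
  have hmuc : mu A g c ≤ p - 2 := by
    unfold mu
    omega
  have hrev : mu A g.reverse c = mu A g (c ^ (q - 1)) := by
    unfold mu
    apply (hRmu (ResidueField A) g (residue A c) (residue A (c ^ (q - 1))) ?_).1
    rw [← map_mul, hc1, map_one]
  have hmuc' : mu A g.reverse c ≤ p - 2 := by
    rw [hrev]
    unfold mu
    omega
  obtain ⟨C1, hC1, hk1⟩ := hLoc K A p q c w g hp hpq hL.hm hcq hL.hw hg0 hmuc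
  obtain ⟨C2, hC2, hk2⟩ := hLoc K A p q c w g.reverse hp hpq hL.hm hcq hL.hw
    (red_rev g hg0) hmuc'
  refine ⟨C2 / C1, div_ne_zero hC2 hC1, fun k hk => ?_⟩
  obtain ⟨θ1, hθ1, he1⟩ := hk1 k hk
  obtain ⟨θ2, hθ2, he2⟩ := hk2 k hk
  have hk0 : (k : ResidueField A) ≠ 0 := by
    intro h0
    exact hk ((CharP.cast_eq_zero_iff (ResidueField A) p k).mp h0)
  have hu : IsUnit θ1 := by
    rw [← residue_ne_zero_iff_isUnit, hθ1]
    exact mul_ne_zero (pow_ne_zero _ hk0) hC1
  obtain ⟨u, hu⟩ := hu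
  have hw1 : (w : K) - 1 ≠ 0 := by
    intro h0
    have h1 : w = 1 := by
      apply Subtype.ext
      show (w : K) = 1
      exact sub_eq_zero.mp h0
    have h2 := hL.hw
    rw [h1] at h2
    have h3 := h2.eq_orderOf
    rw [orderOf_one] at h3
    exact hp.one_lt.ne' h3
  have hcoe : ∀ f : ℤ[X], aeval ((c : K) * (w : K) ^ k) f = ((aeval (c * w ^ k) f : A) : K) := by
    intro f
    have h1 := (Polynomial.aeval_algebraMap_apply K (c * w ^ k : A) f)
    have h2 : (algebraMap A K) (c * w ^ k) = (c : K) * (w : K) ^ k := by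
      rw [map_mul, map_pow]
      rfl
    rw [h2] at h1
    exact h1
  refine ⟨θ2 * (u⁻¹ : Aˣ), ?_, ?_⟩
  · have h1 : residue A ((u⁻¹ : Aˣ) : A) = (residue A θ1)⁻¹ := by
      have h2 : residue A ((u⁻¹ : Aˣ) : A) * residue A θ1 = 1 := by
        rw [← hu, ← map_mul, Units.inv_mul, map_one]
      exact eq_inv_of_mul_eq_one_left h2
    rw [map_mul, h1, hθ1, hθ2]
    unfold ex
    rw [hrev, zpow_sub₀ hk0, zpow_natCast, zpow_natCast]
    have := pow_ne_zero (mu A g c) hk0
    field_simp
  · have hθ1K : (θ1 : K) ≠ 0 := by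
      rw [← hu]
      intro h0
      have h1 : ((u : A) : K) * ((u⁻¹ : Aˣ) : A) = 1 := by
        exact congrArg (fun x : A => (x : K)) (Units.mul_inv u)
      rw [h0, zero_mul] at h1
      exact zero_ne_one h1
    have hinv : (((u⁻¹ : Aˣ) : A) : K) = (θ1 : K)⁻¹ := by
      have h1 : (((u⁻¹ : Aˣ) : A) : K) * (θ1 : K) = 1 := by
        have := congrArg (fun x : A => (x : K)) (Units.inv_mul u)
        rw [hu] at this
        simpa using this
      exact eq_inv_of_mul_eq_one_left h1
    unfold uu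
    rw [hcoe, hcoe, he1, he2, hrev]
    unfold ex
    rw [zpow_sub₀ hw1, zpow_natCast, zpow_natCast]
    push_cast
    rw [hinv]
    have := pow_ne_zero (mu A g c) hw1
    field_simp

end Pool.Agent.CYD.H19
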